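import Pool.Agent.Results.MP_c5c71e_co.Superlinear
import Pool.Agent.Results.MP_5b422c_co.SingleGraphAlmostLinear

set_option autoImplicit false

/-!
The exact growth of the bipartite deficiency of graphs of chromatic number `ℵ₁`.
-/

namespace Pool.Agent.Results.MP_c5c71e_co.OptimalGrowth

open Cardinal Set Filter

/-- The chromatic number of a (possibly infinite) graph as a cardinal: the least cardinality of a
set of colours for which there is a proper vertex colouring. -/
noncomputable def cardChromatic {V : Type} (G : SimpleGraph V) : Cardinal.{0} :=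
  sInf {κ : Cardinal.{0} | ∃ α : Type, #α = κ ∧ Nonempty (G.Coloring α)}

/-- `bipDeficiency G S` is `β(G[S])`: the least number of edges whose deletion makes the subgraph
of `G` induced on the finite vertex set `S` bipartite. -/
noncomputable def bipDeficiency {V : Type} (G : SimpleGraph V) (S : Finset V) : ℕ :=
  sInf {m : ℕ | ∃ D : Finset (Sym2 V), D.card = m ∧
    ((G.deleteEdges (D : Set (Sym2 V))).induce (S : Set V)).IsBipartite}

/-- `hG G n` is the maximum of `β(G[S])` over the vertex sets `S` with `n` elements. -/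
noncomputable def hG {V : Type} (G : SimpleGraph V) (n : ℕ) : ℕ :=
  sSup {b : ℕ | ∃ S : Finset V, S.card = n ∧ bipDeficiency G S = b}

/-- For every function `g` tending to infinity there is a graph of chromatic number exactly `ℵ₁`
with `h_G(n) ≤ g(n) n` for all `n`. -/
theorem upper (g : ℕ → ℕ) (hg : Tendsto g atTop atTop) : ∃ (V : Type) (G : SimpleGraph V),
    #V = 𝔠 ∧ cardChromatic G = ℵ₁ ∧ ∀ n : ℕ, hG G n ≤ g n * n := by
  obtain ⟨V, G, h1, h2, h3⟩ := MP_5b422c_co.SingleGraphAlmostLinear.main g hg
  exact ⟨V, G, h1, h2, fun n => (h3 n).1⟩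

theorem lower {V : Type} (G : SimpleGraph V) (h : cardChromatic G = ℵ₁) (C : ℝ) :
    ∀ᶠ n : ℕ in atTop, C * n ≤ hG G n := by
  have h1 : ℵ₀ < Superlinear.cardChromatic G := by
    have : Superlinear.cardChromatic G = ℵ₁ := h
    rw [this]
    exact Cardinal.aleph0_lt_aleph_one
  have h2 := (Superlinear.result V G h1).1
  filter_upwards [h2.eventually_ge_atTop C, Filter.eventually_gt_atTop 0] with n hn hn0
  have hn0' : (0 : ℝ) < n := by exact_mod_cast hn0
  have h3 : C * (n : ℝ) ≤ (Superlinear.hG G n : ℝ) := (le_div_iff₀ hn0').1 hn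
  exact h3

/-- **The functions which bound `h_G(n)` from below for every graph `G` of chromatic number `ℵ₁`
are exactly the functions `O(n)`.** Part (1): for `f : ℕ → ℝ`, the inequality `f n ≤ h_G(n)` holds
for all large `n` for every graph `G` of chromatic number `ℵ₁` if and only if `f n ≤ C n` for some
constant `C` and all large `n`. Part (2): if `f` is not `O(n)`, one graph `G` on continuum many
vertices, of chromatic number exactly `ℵ₁`, has `h_G(n) < f n` for infinitely many `n` and at the
same time `h_G(n) ≤ g(n) n` for all `n`, for an arbitrary prescribed function `g` tending to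
infinity. -/
theorem result :
    (∀ f : ℕ → ℝ, (∀ (V : Type) (G : SimpleGraph V), cardChromatic G = ℵ₁ →
        ∀ᶠ n : ℕ in atTop, f n ≤ hG G n) ↔ ∃ C : ℝ, ∀ᶠ n : ℕ in atTop, f n ≤ C * n) ∧
    (∀ f : ℕ → ℝ, (¬ ∃ C : ℝ, ∀ᶠ n : ℕ in atTop, f n ≤ C * n) →
      ∀ g : ℕ → ℕ, Tendsto g atTop atTop → ∃ (V : Type) (G : SimpleGraph V),
        #V = 𝔠 ∧ cardChromatic G = ℵ₁ ∧ (∀ n : ℕ, hG G n ≤ g n * n) ∧
        ∃ᶠ n : ℕ in atTop, (hG G n : ℝ) < f n) := by
  have part2 : ∀ f : ℕ → ℝ, (¬ ∃ C : ℝ, ∀ᶠ n : ℕ in atTop, f n ≤ C * n) →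
      ∀ g : ℕ → ℕ, Tendsto g atTop atTop → ∃ (V : Type) (G : SimpleGraph V),
        #V = 𝔠 ∧ cardChromatic G = ℵ₁ ∧ (∀ n : ℕ, hG G n ≤ g n * n) ∧
        ∃ᶠ n : ℕ in atTop, (hG G n : ℝ) < f n := by
    intro f hf g hg
    -- a sparse sequence of arguments where `f` is large
    have h1 : ∀ i N : ℕ, ∃ n, N < n ∧ (i : ℝ) * n < f n := by
      intro i N
      by_contra hcon
      push Not at hcon
      apply hf
      refine ⟨i, ?_⟩
      filter_upwards [Filter.eventually_gt_atTop N] with n hn
      exact hcon n hn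
    choose nx hnx1 hnx2 using h1
    obtain ⟨a, ha0, has⟩ : ∃ a : ℕ → ℕ, a 0 = nx 0 0 ∧ ∀ i, a (i + 1) = nx (i + 1) (a i) :=
      ⟨fun i => Nat.rec (motive := fun _ => ℕ) (nx 0 0) (fun i b => nx (i + 1) b) i, rfl,
        fun i => rfl⟩
    have hamono : StrictMono a := strictMono_nat_of_lt_succ (fun i => by
      rw [has]
      exact hnx1 _ _)
    have haf : ∀ i : ℕ, (i : ℝ) * (a i : ℝ) < f (a i) := by
      intro i
      cases i with
      | zero => rw [ha0]; exact hnx2 0 0
      | succ i => rw [has]; exact hnx2 (i + 1) (a i)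
    -- the number of members of the sequence below `n`
    let g' : ℕ → ℕ := fun n => min (g n) (((Finset.range n).filter (fun i => a i < n)).card)
    have hcard : ∀ i, ((Finset.range (a i)).filter (fun j => a j < a i)).card ≤ i := by
      intro i
      have : (Finset.range (a i)).filter (fun j => a j < a i) ⊆ Finset.range i := by
        intro j hj
        rw [Finset.mem_filter] at hj
        exact Finset.mem_range.2 (hamono.lt_iff_lt.1 hj.2)
      exact (Finset.card_le_card this).trans (by simp)
    have hg' : Tendsto g' atTop atTop := by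
      rw [Filter.tendsto_atTop]
      intro b
      filter_upwards [hg.eventually_ge_atTop b, Filter.eventually_gt_atTop (a b)] with n hn hn2
      apply le_min hn
      have : Finset.range b ⊆ (Finset.range n).filter (fun i => a i < n) := by
        intro j hj
        rw [Finset.mem_range] at hj
        rw [Finset.mem_filter, Finset.mem_range]
        have e1 : a j < a b := hamono hj
        have e2 : b ≤ a b := hamono.id_le b
        exact ⟨by omega, by omega⟩
      have h := Finset.card_le_card this
      rwa [Finset.card_range] at h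
    obtain ⟨V, G, hV, hG1, hG2⟩ := upper g' hg'
    refine ⟨V, G, hV, hG1, fun n => (hG2 n).trans (Nat.mul_le_mul_right _ (min_le_left _ _)), ?_⟩
    rw [Filter.frequently_atTop]
    intro N
    refine ⟨a N, hamono.id_le N, ?_⟩
    have h3 : hG G (a N) ≤ N * a N :=
      (hG2 (a N)).trans (Nat.mul_le_mul_right _ ((min_le_right _ _).trans (hcard N)))
    calc (hG G (a N) : ℝ) ≤ ((N * a N : ℕ) : ℝ) := by exact_mod_cast h3
      _ = (N : ℝ) * (a N : ℝ) := by push_cast; ring
      _ < f (a N) := haf N
  refine ⟨fun f => ⟨fun h => ?_, ?_⟩, part2⟩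
  · by_contra hcon
    obtain ⟨V, G, -, hG1, -, hG3⟩ := part2 f hcon (fun n => n) tendsto_id
    obtain ⟨n, hn1, hn2⟩ := (hG3.and_eventually (h V G hG1)).exists
    exact absurd hn2 (not_le.2 hn1)
  · rintro ⟨C, hC⟩ V G hG1
    filter_upwards [hC, lower G hG1 C] with n h1 h2
    exact h1.trans h2

end Pool.Agent.Results.MP_c5c71e_co.OptimalGrowth
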